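import Mathlib

set_option autoImplicit false

namespace Pool.Agent.Results.MP_16c542_al.NotLocality

open TensorProduct

/-- A locality vector space: a symmetric relation all of whose polar sets are subspaces. -/
def IsLocalityVS (K : Type) [Field K] {E : Type} [AddCommGroup E] [Module K E]
    (T : E → E → Prop) : Prop :=
  (∀ x y, T x y → T y x) ∧ ∀ S : Set E, ∃ P : Submodule K E, (P : Set E) = {x | ∀ y ∈ S, T x y}

/-- The locality tensor product, as the subspace of `V ⊗ W` spanned by the `v ⊗ w` with `v ⊤ w`. -/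
def locTensor {K : Type} [Field K] {E : Type} [AddCommGroup E] [Module K E]
    (T : E → E → Prop) (V W : Submodule K E) : Submodule K (V ⊗[K] W) :=
  Submodule.span K {X | ∃ (v : V) (w : W), T v w ∧ X = v ⊗ₜ[K] w}

/-- The quotient locality relation on the locality tensor product. -/
def quotRel {K : Type} [Field K] {E : Type} [AddCommGroup E] [Module K E]
    (T : E → E → Prop) (V W : Submodule K E) (X Y : locTensor T V W) : Prop :=
  ∃ (m n : ℕ) (v : Fin m → V) (w : Fin m → W) (v' : Fin n → V) (w' : Fin n → W),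
    (X : V ⊗[K] W) = ∑ i, v i ⊗ₜ[K] w i ∧ (Y : V ⊗[K] W) = ∑ j, v' j ⊗ₜ[K] w' j ∧
    (∀ i, T (v i) (w i)) ∧ (∀ j, T (v' j) (w' j)) ∧
    ∀ i j, T (v i) (v' j) ∧ T (v i) (w' j) ∧ T (w i) (v' j) ∧ T (w i) (w' j)

/-- Some polar set of a single element for the quotient locality relation is not closed under
addition. -/
def PolarNotAddClosed {K : Type} [Field K] {E : Type} [AddCommGroup E] [Module K E]
    (T : E → E → Prop) (V W : Submodule K E) : Prop :=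
  ∃ X₁ X₂ Y : locTensor T V W,
    quotRel T V W X₁ Y ∧ quotRel T V W X₂ Y ∧ ¬ quotRel T V W (X₁ + X₂) Y

section example_

variable {K : Type} [Field K]

/-- Matched lines, in the coordinates `(u 0, u 1, u 2 + u 3)`. -/
def Mt (u v : Fin 6 → K) : Prop :=
  (u 1 = 0 ∧ u 0 = u 2 + u 3 ∧ v 1 = 0 ∧ v 2 + v 3 = 0) ∨
  (u 0 = 0 ∧ u 1 = u 2 + u 3 ∧ v 0 = 0 ∧ v 2 + v 3 = 0) ∨
  (u 0 = 0 ∧ u 1 = 0 ∧ v 0 = v 1 ∧ v 2 + v 3 = 0)

def Z (u : Fin 6 → K) : Prop := u 0 = 0 ∧ u 1 = 0 ∧ u 2 + u 3 = 0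

def T0 (u v : Fin 6 → K) : Prop := Z u ∨ Z v ∨ Mt u v ∨ Mt v u

def T (u v : Fin 6 → K) : Prop :=
  T0 u v ∧ (u 4 = 0 ∨ v 3 = 0) ∧ (v 4 = 0 ∨ u 3 = 0) ∧ (u 5 = 0 ∨ v 2 = 0) ∧ (v 5 = 0 ∨ u 2 = 0)

lemma T_symm (u v : Fin 6 → K) (h : T u v) : T v u := by
  unfold T T0 at *; tauto

lemma T0_add (u u' v : Fin 6 → K) (h : T0 u v) (h' : T0 u' v) : T0 (u + u') v := by
  simp only [T0, Z, Mt, Pi.add_apply] at *
  rcases h with h | h | (h | h | h) | (h | h | h) <;>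
    rcases h' with h' | h' | (h' | h' | h') | (h' | h' | h') <;> grind

lemma T0_smul (c : K) (u v : Fin 6 → K) (h : T0 u v) : T0 (c • u) v := by
  simp only [T0, Z, Mt, Pi.smul_apply, smul_eq_mul] at *
  rcases h with h | h | (h | h | h) | (h | h | h) <;> grind

lemma T_add (u u' v : Fin 6 → K) (h : T u v) (h' : T u' v) : T (u + u') v := by
  refine ⟨T0_add _ _ _ h.1 h'.1, ?_⟩
  have a := h.2
  have b := h'.2
  simp only [Pi.add_apply]
  grind

lemma T_smul (c : K) (u v : Fin 6 → K) (h : T u v) : T (c • u) v := by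
  refine ⟨T0_smul _ _ _ h.1, ?_⟩
  have a := h.2
  simp only [Pi.smul_apply, smul_eq_mul]
  grind

lemma T_loc : IsLocalityVS K (T : (Fin 6 → K) → (Fin 6 → K) → Prop) := by
  refine ⟨T_symm, fun S => ⟨⟨⟨⟨{x | ∀ y ∈ S, T x y}, ?_⟩, ?_⟩, ?_⟩, rfl⟩⟩
  · intro a b ha hb y hy
    exact T_add _ _ _ (ha y hy) (hb y hy)
  · intro y _
    simp [T, T0, Z]
  · intro c a ha y hy
    exact T_smul _ _ _ (ha y hy)

abbrev V6 (K : Type) [Field K] : Submodule K (Fin 6 → K) := ⊤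

def mk (u : Fin 6 → K) : V6 K := ⟨u, trivial⟩

def e (i : Fin 6) : V6 K := mk (Pi.single i 1)

noncomputable def phi (i : Fin 6) : V6 K ⊗[K] V6 K →ₗ[K] K :=
  TensorProduct.lift (LinearMap.mk₂ K (fun u v => u.1 i * v.1 i)
    (fun _ _ _ => by simp [add_mul]) (fun _ _ _ => by simp [mul_assoc])
    (fun _ _ _ => by simp [mul_add]) (fun _ _ _ => by simp [mul_left_comm]))

lemma phi_tmul (i : Fin 6) (u v : V6 K) : phi i (u ⊗ₜ[K] v) = u.1 i * v.1 i := rfl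

lemma Y_eq (p : V6 K) : e 0 ⊗ₜ[K] e 0 + e 1 ⊗ₜ[K] e 1 =
    ∑ j, (![e 0 + p, e 1 + p, -p] : Fin 3 → V6 K) j ⊗ₜ[K] (![e 0, e 1, e 0 + e 1] : Fin 3 → V6 K) j := by
  simp [Fin.sum_univ_succ, add_tmul, tmul_add, neg_tmul]
  abel

lemma mem_of_sum {n : ℕ} (v w : Fin n → V6 K) (h : ∀ j, T (v j).1 (w j).1) :
    ∑ j, v j ⊗ₜ[K] w j ∈ locTensor T (V6 K) (V6 K) :=
  Submodule.sum_mem _ fun j _ => Submodule.subset_span ⟨v j, w j, h j, rfl⟩

lemma Y_T2 : ∀ j, T ((![e 0 + e 2, e 1 + e 2, -e 2] : Fin 3 → V6 K) j).1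
    ((![e 0, e 1, e 0 + e 1] : Fin 3 → V6 K) j).1 := by
  intro j; fin_cases j <;> simp [T, T0, Z, Mt, e, mk]

lemma Y_T3 : ∀ j, T ((![e 0 + e 3, e 1 + e 3, -e 3] : Fin 3 → V6 K) j).1
    ((![e 0, e 1, e 0 + e 1] : Fin 3 → V6 K) j).1 := by
  intro j; fin_cases j <;> simp [T, T0, Z, Mt, e, mk]

noncomputable def Y : locTensor T (V6 K) (V6 K) :=
  ⟨e 0 ⊗ₜ[K] e 0 + e 1 ⊗ₜ[K] e 1, by rw [Y_eq (e 2)]; exact mem_of_sum _ _ Y_T2⟩

noncomputable def X4 : locTensor T (V6 K) (V6 K) :=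
  ⟨e 4 ⊗ₜ[K] e 4, Submodule.subset_span ⟨e 4, e 4, by simp [T, T0, Z, e, mk], rfl⟩⟩

noncomputable def X5 : locTensor T (V6 K) (V6 K) :=
  ⟨e 5 ⊗ₜ[K] e 5, Submodule.subset_span ⟨e 5, e 5, by simp [T, T0, Z, e, mk], rfl⟩⟩

lemma X4_Y : quotRel T (V6 K) (V6 K) X4 Y := by
  refine ⟨1, 3, ![e 4], ![e 4], _, _, by simp [X4], Y_eq (e 2), ?_, Y_T2, ?_⟩
  · intro i; fin_cases i; simp [T, T0, Z, e, mk]
  · intro i j; fin_cases i; fin_cases j <;> simp [T, T0, Z, e, mk]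

lemma X5_Y : quotRel T (V6 K) (V6 K) X5 Y := by
  refine ⟨1, 3, ![e 5], ![e 5], _, _, by simp [X5], Y_eq (e 3), ?_, Y_T3, ?_⟩
  · intro i; fin_cases i; simp [T, T0, Z, e, mk]
  · intro i j; fin_cases i; fin_cases j <;> simp [T, T0, Z, e, mk]

lemma not_sum : ¬ quotRel T (V6 K) (V6 K) (X4 + X5) Y := by
  rintro ⟨m, n, v, w, v', w', hX, hY, -, h2, h3⟩
  have a4 : ∃ i, (v i).1 4 ≠ 0 := by
    by_contra hh
    push Not at hh
    have := congrArg (phi 4) hX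
    simp [X4, X5, phi_tmul, e, mk, hh] at this
  have a5 : ∃ i, (v i).1 5 ≠ 0 := by
    by_contra hh
    push Not at hh
    have := congrArg (phi 5) hX
    simp [X4, X5, phi_tmul, e, mk, hh] at this
  obtain ⟨i4, a4⟩ := a4
  obtain ⟨i5, a5⟩ := a5
  have key : ∀ j, (v' j).1 0 * (w' j).1 0 = 0 := by
    intro j
    have b1 := (h3 i4 j).1.2.1.resolve_left a4
    have b2 := (h3 i4 j).2.1.2.1.resolve_left a4
    have b3 := (h3 i5 j).1.2.2.2.1.resolve_left a5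
    have b4 := (h3 i5 j).2.1.2.2.2.1.resolve_left a5
    have b5 := (h2 j).1
    simp only [T0, Z, Mt, b1, b2, b3, b4] at b5
    grind
  have := congrArg (phi 0) hY
  simp [Y, phi_tmul, e, mk, key] at this

end example_

/-- Over every field there are a locality vector space and subspaces `V`, `W` whose locality tensor
product, with the quotient locality relation, is not a locality vector space: the polar set of a
single element is not closed under addition. -/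
theorem result (K : Type) [Field K] :
    ∃ (T : (Fin 6 → K) → (Fin 6 → K) → Prop) (V W : Submodule K (Fin 6 → K)),
      IsLocalityVS K T ∧ PolarNotAddClosed T V W :=
  ⟨T, V6 K, V6 K, T_loc, X4, X5, Y, X4_Y, X5_Y, not_sum⟩

end Pool.Agent.Results.MP_16c542_al.NotLocality
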